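import Pool.Agent.W2helper20.BC.Main

/-!
# MP_07cd05_gt: boundary rigidity for pairs of simple metrics beyond the conformal class

`M` is the closed unit ball of `ℝ^n`, `n ≥ 2` (every simple manifold is diffeomorphic to it). The definitions
`IsMetric`, `IsGeod`, `IsSimple` (strictly convex boundary sphere; every exponential map is a diffeomorphism of its
maximal domain of definition onto `M`), `rdist` (Riemannian distance) are those of `Pool.Agent.Q176.SM`.

**Theorem.** Let `g`, `g'` be simple metrics with the same boundary distance function. Suppose that at every point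
`r - 1 + (r' - 1) * δ ≤ 0`, where `r` is the quadratic mean of the `g'`-length over the `g`-unit sphere
(`r ^ 2 = tr_g g' / n`), `r'` the quadratic mean of the `g`-length over the `g'`-unit sphere, and `δ` the ratio of the
volume densities of `g'` and `g`. Then `g' = g`.

The condition holds for all `g' = c g` with a positive function `c` (`conformal_noLarger`), and more generally if
`g' = c g` on a distribution of rank at least two and `g' = g` on its `g`-orthogonal complement.

Proof: the reversal of geodesics preserves the Liouville measure (symmetry of the density of the exponential maps, from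
the second variation), so the Liouville measure is an average over the maximal geodesics; along each of them the
`g'`-length is at least the `g`-length. So the mean of `|v|_{g'}` over the unit sphere bundle of `g` is at least one, and
conversely. The pointwise condition forces equality almost everywhere in both inequalities.
-/

set_option autoImplicit false

namespace Pool.Agent.W2helper20.Kept.BeyondConformal

open Pool.Agent.Q176.SM
open scoped InnerProductSpace

/-- The Gram matrix of `g` at `x`. -/
noncomputable def gramMatrix {n : ℕ} (g : E n → E n → E n → ℝ) (x : E n) : Matrix (Fin n) (Fin n) ℝ :=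
  Matrix.of fun i j => g x (EuclideanSpace.single i (1 : ℝ)) (EuclideanSpace.single j (1 : ℝ))

/-- The quadratic mean of the `g'`-length over the `g`-unit sphere at `x`: `(tr (G⁻¹ G') / n)^(1/2)`. -/
noncomputable def rms {n : ℕ} (g g' : E n → E n → E n → ℝ) (x : E n) : ℝ :=
  √(((gramMatrix g x)⁻¹ * gramMatrix g' x).trace / n)

/-- The pointwise condition. -/
def NoLarger {n : ℕ} (g g' : E n → E n → E n → ℝ) (x : E n) : Prop :=
  rms g g' x - 1 + (rms g' g x - 1) * √((gramMatrix g' x).det / (gramMatrix g x).det) ≤ 0

theorem result (n : ℕ) (hn : 2 ≤ n) (g g' : E n → E n → E n → ℝ) (hg : IsSimple g) (hg' : IsSimple g')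
    (hd : ∀ x ∈ bdM n, ∀ y ∈ bdM n, rdist g x y = rdist g' x y) (hc : ∀ x ∈ M n, NoLarger g g' x) :
    ∀ x ∈ M n, g' x = g x := by
  intro x hx
  have hm := hg.toIsMetric
  have hm' := hg'.toIsMetric
  have h1 := Pool.Agent.W2helper20.BC.mainF hn (Pool.Agent.Q176.BR.clm_simple hg)
    (Pool.Agent.Q176.BR.clm_simple hg')
    (fun p hp q hq => by
      rw [Pool.Agent.Q176.BR.clm_rdist hm, Pool.Agent.Q176.BR.clm_rdist hm']
      exact hd p hp q hq)
    (fun y hy => by
      unfold Pool.Agent.W2helper20.BC.Cond
      rw [Pool.Agent.W2helper20.BC.gram_clm hm, Pool.Agent.W2helper20.BC.gram_clm hm']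
      exact hc y hy) x hx
  funext v w
  rw [← Pool.Agent.Q176.BR.clm_apply hm, ← Pool.Agent.Q176.BR.clm_apply hm', h1]

theorem det_pos {n : ℕ} {g : E n → E n → E n → ℝ} (hg : IsMetric g) (x : E n) :
    0 < (gramMatrix g x).det := by
  have h := (Pool.Agent.Q176.BR.clm_metric hg).det_pos x
  rwa [Pool.Agent.W2helper20.BC.gram_clm hg] at h

/-- The condition holds at `x` if `g'` is conformal to `g` at `x`. -/
theorem conformal_noLarger {n : ℕ} (hn : 1 ≤ n) {g g' : E n → E n → E n → ℝ} (hg : IsMetric g) {x : E n}
    {c : ℝ} (hc : 0 < c) (h : ∀ v w, g' x v w = c * g x v w) : NoLarger g g' x := by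
  have hG := det_pos hg x
  have hu : IsUnit (gramMatrix g x).det := isUnit_iff_ne_zero.2 hG.ne'
  have hn0 : (n : ℝ) ≠ 0 := by
    have : 0 < n := hn
    positivity
  have e1 : gramMatrix g' x = c • gramMatrix g x := by
    ext i j
    simp only [gramMatrix, Matrix.of_apply, Matrix.smul_apply, smul_eq_mul]
    exact h _ _
  have e2 : (gramMatrix g x)⁻¹ * gramMatrix g' x = c • (1 : Matrix (Fin n) (Fin n) ℝ) := by
    rw [e1, Matrix.mul_smul, Matrix.nonsing_inv_mul _ hu]
  have e3 : (gramMatrix g' x)⁻¹ * gramMatrix g x = c⁻¹ • (1 : Matrix (Fin n) (Fin n) ℝ) := by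
    have h4 : (gramMatrix g' x)⁻¹ = c⁻¹ • (gramMatrix g x)⁻¹ := by
      refine Matrix.inv_eq_right_inv ?_
      rw [e1, Matrix.smul_mul, Matrix.mul_smul, Matrix.mul_nonsing_inv _ hu, smul_smul,
        mul_inv_cancel₀ hc.ne', one_smul]
    rw [h4, Matrix.smul_mul, Matrix.nonsing_inv_mul _ hu]
  have e4 : (gramMatrix g' x).det / (gramMatrix g x).det = c ^ n := by
    rw [e1, Matrix.det_smul, Fintype.card_fin]
    field_simp
  unfold NoLarger rms
  rw [e2, e3, e4]
  simp only [Matrix.trace_smul, Matrix.trace_one, Fintype.card_fin, smul_eq_mul]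
  rw [mul_div_cancel_right₀ _ hn0, mul_div_cancel_right₀ _ hn0, Real.sqrt_inv]
  have hs : 0 < √c := Real.sqrt_pos.2 hc
  have e5 : √(c ^ n) = √c ^ n := by
    rw [Real.sqrt_eq_iff_mul_self_eq (by positivity) (by positivity), ← mul_pow,
      Real.mul_self_sqrt hc.le]
  rw [e5]
  obtain ⟨m, rfl⟩ : ∃ m, n = m + 1 := ⟨n - 1, by omega⟩
  have e6 : √c - 1 + ((√c)⁻¹ - 1) * √c ^ (m + 1) = (√c - 1) * (1 - √c ^ m) := by
    field_simp
    ring
  rw [e6]
  rcases le_total 1 (√c) with h1 | h1
  · have : 1 ≤ √c ^ m := one_le_pow₀ h1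
    nlinarith
  · have : √c ^ m ≤ 1 := pow_le_one₀ hs.le h1
    nlinarith

end Pool.Agent.W2helper20.Kept.BeyondConformal
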